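import Pool.Agent.H98.KS.Targets2

/-! # Module G0: multiplicativity of the normalised complete sums -/

open scoped BigOperators

noncomputable section

namespace Pool.Agent.H74.KS

open Pool.Agent.H98.KS

theorem ee_add (x y : ℝ) : ee (x + y) = ee x * ee y := by
  unfold ee
  rw [← Complex.exp_add]
  congr 1
  push_cast
  ring

theorem ee_int (n : ℤ) : ee (n : ℝ) = 1 := by
  unfold ee
  rw [Complex.exp_eq_one_iff]
  exact ⟨n, by push_cast; ring⟩

theorem ee_add_int (x : ℝ) (n : ℤ) : ee (x + n) = ee x := by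
  rw [ee_add, ee_int, mul_one]

theorem ee_congr {q : ℕ} (hq : 1 ≤ q) {m n : ℤ} (h : (q : ℤ) ∣ m - n) :
    ee ((m : ℝ) / q) = ee ((n : ℝ) / q) := by
  obtain ⟨t, ht⟩ := h
  have hq0 : (q : ℝ) ≠ 0 := by
    have : (1 : ℝ) ≤ q := by exact_mod_cast hq
    linarith
  have h1 : (m : ℝ) / q = (n : ℝ) / q + t := by
    have h2 : (m : ℝ) = n + q * t := by
      have : (m : ℝ) - n = q * t := by exact_mod_cast ht
      linarith
    rw [h2]
    field_simp
  rw [h1, ee_add_int]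

/-- Chinese remainder theorem for sums of periodic functions -/
theorem sum_crt {q1 q2 : ℕ} (h1 : 1 ≤ q1) (h2 : 1 ≤ q2) (hc : Nat.Coprime q1 q2) (g : ℕ → ℂ)
    (hg : ∀ n, g (n % (q1 * q2)) = g n) :
    ∑ r ∈ Finset.range (q1 * q2), g r =
      ∑ r1 ∈ Finset.range q1, ∑ r2 ∈ Finset.range q2, g (q2 * r1 + q1 * r2) := by
  classical
  rw [← Finset.sum_product']
  have hinj : Set.InjOn (fun r : ℕ × ℕ => (q2 * r.1 + q1 * r.2) % (q1 * q2))
      ((Finset.range q1 ×ˢ Finset.range q2 : Finset (ℕ × ℕ)) : Set (ℕ × ℕ)) := by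
    rintro ⟨a, b⟩ hab ⟨c, d⟩ hcd h
    simp only [Finset.coe_product, Set.mem_prod, Finset.mem_coe, Finset.mem_range] at hab hcd
    have h' : q2 * a + q1 * b ≡ q2 * c + q1 * d [MOD q1 * q2] := h
    have e1 : q2 * a ≡ q2 * c [MOD q1] := by
      have h3 := h'.of_mul_right q2
      have h4 : q2 * a + q1 * b ≡ q2 * a [MOD q1] := by
        simp [Nat.ModEq, Nat.add_mul_mod_self_left]
      have h5 : q2 * c + q1 * d ≡ q2 * c [MOD q1] := by
        simp [Nat.ModEq, Nat.add_mul_mod_self_left]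
      exact h4.symm.trans (h3.trans h5)
    have e2 : q1 * b ≡ q1 * d [MOD q2] := by
      have h3 := h'.of_mul_left q1
      have h4 : q2 * a + q1 * b ≡ q1 * b [MOD q2] := by
        simp [Nat.ModEq]
      have h5 : q2 * c + q1 * d ≡ q1 * d [MOD q2] := by
        simp [Nat.ModEq]
      exact h4.symm.trans (h3.trans h5)
    have f1 : a ≡ c [MOD q1] := Nat.ModEq.cancel_left_of_coprime hc e1
    have f2 : b ≡ d [MOD q2] := Nat.ModEq.cancel_left_of_coprime hc.symm e2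
    exact Prod.ext (f1.eq_of_lt_of_lt hab.1 hcd.1) (f2.eq_of_lt_of_lt hab.2 hcd.2)
  have himg : (Finset.range q1 ×ˢ Finset.range q2).image
      (fun r : ℕ × ℕ => (q2 * r.1 + q1 * r.2) % (q1 * q2)) = Finset.range (q1 * q2) := by
    apply Finset.eq_of_subset_of_card_le
    · intro x hx
      obtain ⟨r, -, rfl⟩ := Finset.mem_image.1 hx
      exact Finset.mem_range.2 (Nat.mod_lt _ (Nat.mul_pos h1 h2))
    · rw [Finset.card_image_of_injOn hinj, Finset.card_product, Finset.card_range,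
        Finset.card_range, Finset.card_range]
  rw [← himg, Finset.sum_image fun x hx y hy h => hinj hx hy h]
  exact Finset.sum_congr rfl fun r _ => hg _

theorem pow_crt {k : ℕ} (hk : 1 ≤ k) {q1 q2 : ℤ} (hc : IsCoprime q1 q2) (x y : ℤ) :
    q1 * q2 ∣ (q2 * x + q1 * y) ^ k - ((q2 * x) ^ k + (q1 * y) ^ k) := by
  have hk0 : k ≠ 0 := by omega
  apply IsCoprime.mul_dvd hc
  · have h1 : q1 ∣ (q2 * x + q1 * y) ^ k - (q2 * x) ^ k := by
      refine dvd_trans ?_ (sub_dvd_pow_sub_pow _ _ k)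
      exact ⟨y, by ring⟩
    have h2 : q1 ∣ (q1 * y) ^ k := dvd_pow ⟨y, rfl⟩ hk0
    have h3 := dvd_sub h1 h2
    have h4 : (q2 * x + q1 * y) ^ k - ((q2 * x) ^ k + (q1 * y) ^ k) =
        (q2 * x + q1 * y) ^ k - (q2 * x) ^ k - (q1 * y) ^ k := by ring
    rwa [h4]
  · have h1 : q2 ∣ (q2 * x + q1 * y) ^ k - (q1 * y) ^ k := by
      refine dvd_trans ?_ (sub_dvd_pow_sub_pow _ _ k)
      exact ⟨x, by ring⟩
    have h2 : q2 ∣ (q2 * x) ^ k := dvd_pow ⟨x, rfl⟩ hk0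
    have h3 := dvd_sub h1 h2
    have h4 : (q2 * x + q1 * y) ^ k - ((q2 * x) ^ k + (q1 * y) ^ k) =
        (q2 * x + q1 * y) ^ k - (q1 * y) ^ k - (q2 * x) ^ k := by ring
    rwa [h4]

theorem ks_G0 : T_G0 := by
  intro k q1 q2 a b hk h1 h2 hc
  have hq1 : (q1 : ℝ) ≠ 0 := by
    have : (1 : ℝ) ≤ q1 := by exact_mod_cast h1
    linarith
  have hq2 : (q2 : ℝ) ≠ 0 := by
    have : (1 : ℝ) ≤ q2 := by exact_mod_cast h2
    linarith
  have h12 : 1 ≤ q1 * q2 := Nat.mul_pos h1 h2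
  obtain ⟨j, rfl⟩ : ∃ j, k = j + 1 := ⟨k - 1, by omega⟩
  unfold GG
  rw [sum_crt h1 h2 hc (fun r => ee (((a * (r : ℤ) ^ (j + 1) + b * r : ℤ) : ℝ) /
    ((q1 * q2 : ℕ) : ℝ)))]
  · have hterm : ∀ r1 r2 : ℕ,
        ee (((a * ((q2 * r1 + q1 * r2 : ℕ) : ℤ) ^ (j + 1) +
          b * ((q2 * r1 + q1 * r2 : ℕ) : ℤ) : ℤ) : ℝ) / ((q1 * q2 : ℕ) : ℝ)) =
        ee (((a * (q2 : ℤ) ^ j * (r1 : ℤ) ^ (j + 1) + b * r1 : ℤ) : ℝ) / q1) *
          ee (((a * (q1 : ℤ) ^ j * (r2 : ℤ) ^ (j + 1) + b * r2 : ℤ) : ℝ) / q2) := by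
      intro r1 r2
      have hd := pow_crt (k := j + 1) (by omega) (Nat.isCoprime_iff_coprime.2 hc) (r1 : ℤ) (r2 : ℤ)
      rw [ee_congr h12 (n := a * (((q2 : ℤ) * r1) ^ (j + 1) + ((q1 : ℤ) * r2) ^ (j + 1)) +
        b * ((q2 * r1 + q1 * r2 : ℕ) : ℤ)), ← ee_add]
      · congr 1
        push_cast
        field_simp
        ring
      · obtain ⟨t, ht⟩ := hd
        refine ⟨a * t, ?_⟩
        push_cast
        linear_combination a * ht
    simp only [hterm, Nat.add_sub_cancel]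
    simp only [← Finset.mul_sum]
    rw [← Finset.sum_mul]
    push_cast
    rw [mul_mul_mul_comm]
    congr 1
    field_simp
  · intro n
    apply ee_congr h12
    have hn : ((q1 * q2 : ℕ) : ℤ) ∣ ((n % (q1 * q2) : ℕ) : ℤ) - n := by
      rw [Int.natCast_mod]
      exact Int.ModEq.dvd (Int.mod_modEq _ _).symm
    have hp : ((q1 * q2 : ℕ) : ℤ) ∣ ((n % (q1 * q2) : ℕ) : ℤ) ^ (j + 1) - (n : ℤ) ^ (j + 1) :=
      hn.trans (sub_dvd_pow_sub_pow _ _ _)
    obtain ⟨s, hs⟩ := hn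
    obtain ⟨t, ht⟩ := hp
    exact ⟨a * t + b * s, by linear_combination a * ht + b * hs⟩

end Pool.Agent.H74.KS
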