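import Pool.Agent.H98.KS.Targets2

/-! # Module G1a: prime modulus, exponent at least five -/

open scoped BigOperators

noncomputable section

namespace Pool.Agent.H74.KS

open Pool.Agent.H98.KS

theorem GG_eq_SW (k p : ℕ) (a b : ℤ) :
    GG k a b p = (1 / (p : ℂ)) * SW k p (fun _ => 1) a b := by
  unfold GG SW
  simp only [one_mul]

theorem ks_G1a (hGE : T_GE) (hM4 : T_M4) (hOB : T_OB) : T_G1a := by
  intro k hk
  refine ⟨(2 * (k + 1)) ^ 5, fun p a b hp hpl _ hb => ?_⟩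
  have hkp : k < p := by
    have h1 : 2 * (k + 1) ≤ (2 * (k + 1)) ^ 5 := Nat.le_self_pow (by norm_num) _
    omega
  have hp1 : 1 ≤ p := hp.one_lt.le
  have hpR : (1 : ℝ) < p := by exact_mod_cast hp.one_lt
  have hp0 : (0 : ℝ) < p := by linarith
  have hSW : ∀ a b : ℤ, SW k p (fun _ => 1) a b = p * GG k a b p := by
    intro a b
    rw [GG_eq_SW]
    have : (p : ℂ) ≠ 0 := by exact_mod_cast hp0.ne'
    field_simp
  have h1 := hOB k p (fun a b => ‖SW k p (fun _ => 1) a b‖ ^ 4) a b hp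
    (fun a b => by positivity)
    (fun a b u v => by
      simp only [hSW]
      rw [(hGE k p a b hp1).2.1 u v])
    (fun u hu => by
      simp only [hSW]
      rw [(hGE k p a b hp1).2.2.1 u
        ((Nat.prime_iff_prime_int.1 hp).coprime_iff_not_dvd.2 hu).symm])
    hb
  have h2 := hM4 k p (fun _ => 1) (by omega) hp hkp (fun _ => by simp)
  have h3 : ((p : ℝ) - 1) * ‖SW k p (fun _ => 1) a b‖ ^ 4 ≤ ((k : ℝ) + 1) * (p : ℝ) ^ 4 :=
    h1.trans h2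
  rw [hSW, norm_mul, Complex.norm_natCast, mul_pow] at h3
  obtain ⟨x, hx⟩ : ∃ x, x = ‖GG k a b p‖ := ⟨_, rfl⟩
  rw [← hx] at h3 ⊢
  have hx0 : 0 ≤ x := by rw [hx]; positivity
  have hp4 : (0 : ℝ) < (p : ℝ) ^ 4 := by positivity
  have h4 : ((p : ℝ) - 1) * x ^ 4 ≤ (k : ℝ) + 1 := by
    have : (p : ℝ) ^ 4 * (((p : ℝ) - 1) * x ^ 4) ≤ (p : ℝ) ^ 4 * ((k : ℝ) + 1) := by
      linarith
    exact le_of_mul_le_mul_left this hp4
  have hp2 : (2 : ℝ) ≤ p := by exact_mod_cast hp.two_le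
  have h5 : (p : ℝ) * x ^ 4 ≤ 2 * ((k : ℝ) + 1) := by
    have hx4 : 0 ≤ x ^ 4 := by positivity
    nlinarith
  -- the comparison
  have hkR : (5 : ℝ) ≤ k := by exact_mod_cast hk
  have hk0 : (0 : ℝ) < k := by linarith
  have h6 : 2 * ((k : ℝ) + 1) ≤ (p : ℝ) ^ ((1 : ℝ) / 5) := by
    have h7 : ((2 * ((k : ℝ) + 1)) ^ 5) ≤ p := by exact_mod_cast hpl
    have h8 : ((2 * ((k : ℝ) + 1)) ^ 5) ^ ((1 : ℝ) / 5) ≤ (p : ℝ) ^ ((1 : ℝ) / 5) :=
      Real.rpow_le_rpow (by positivity) h7 (by norm_num)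
    have h9 : ((2 * ((k : ℝ) + 1)) ^ 5) ^ ((1 : ℝ) / 5) = 2 * ((k : ℝ) + 1) := by
      rw [← Real.rpow_natCast, ← Real.rpow_mul (by positivity)]
      norm_num
    rwa [h9] at h8
  have h10 : (p : ℝ) ^ ((1 : ℝ) / 5) ≤ (p : ℝ) ^ (1 - 4 / (k : ℝ)) := by
    apply Real.rpow_le_rpow_of_exponent_le hpR.le
    have : 4 / (k : ℝ) ≤ 4 / 5 := div_le_div_of_nonneg_left (by norm_num) (by norm_num) hkR
    linarith
  have h11 : x ^ 4 ≤ ((p : ℝ) ^ (-(1 / (k : ℝ)))) ^ 4 := by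
    have h12 : ((p : ℝ) ^ (-(1 / (k : ℝ)))) ^ 4 = (p : ℝ) ^ (-(4 / (k : ℝ))) := by
      rw [← Real.rpow_natCast, ← Real.rpow_mul hp0.le]
      congr 1
      push_cast
      ring
    rw [h12]
    have h13 : (p : ℝ) ^ (1 - 4 / (k : ℝ)) = p * (p : ℝ) ^ (-(4 / (k : ℝ))) := by
      rw [sub_eq_add_neg, Real.rpow_add hp0, Real.rpow_one]
    have h14 : (p : ℝ) * x ^ 4 ≤ p * (p : ℝ) ^ (-(4 / (k : ℝ))) := by
      rw [← h13]
      exact h5.trans (h6.trans h10)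
    exact le_of_mul_le_mul_left h14 hp0
  exact le_of_pow_le_pow_left₀ (by norm_num) (by positivity) h11

end Pool.Agent.H74.KS
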