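import Pool.Agent.H98.KS.Targets2

/-! # Module G7: all powers of one prime -/

open scoped BigOperators

noncomputable section

namespace Pool.Agent.H74.KS

open Pool.Agent.H98.KS

theorem ks_G7 (hGE : T_GE) (hG3 : T_G3) (hG4 : T_G4) : T_G7 := by
  intro k p hk hp
  have hkne : k ≠ 0 := by omega
  obtain ⟨v, hv1, hv2⟩ : ∃ v, p ^ v ∣ k ∧ ¬ p ^ (v + 1) ∣ k :=
    ⟨k.factorization p, Nat.ordProj_dvd k p, Nat.pow_succ_factorization_not_dvd hkne hp⟩
  have hpR : (1 : ℝ) < p := by exact_mod_cast hp.one_lt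
  have hp0 : (0 : ℝ) < p := by linarith
  have hk0 : (0 : ℝ) < k := by
    have : (3 : ℝ) ≤ k := by exact_mod_cast hk
    linarith
  have hk2 : (2 : ℝ) ≤ k := by
    have : (3 : ℝ) ≤ k := by exact_mod_cast hk
    linarith
  obtain ⟨C, hC⟩ : ∃ C : ℝ, C = (p : ℝ) ^ (2 * v + 2) + (k : ℝ) ^ 2 * (p : ℝ) ^ (v + 1) := ⟨_, rfl⟩
  have hA : (1 : ℝ) ≤ (p : ℝ) ^ (2 * v + 2) := one_le_pow₀ hpR.le
  have hB : 0 ≤ (k : ℝ) ^ 2 * (p : ℝ) ^ (v + 1) := by positivity
  have hC1 : 1 ≤ C := by rw [hC]; linarith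
  have hCA : (p : ℝ) ^ (2 * v + 2) ≤ C := by rw [hC]; linarith
  have hCB : (k : ℝ) ^ 2 * (p : ℝ) ^ (v + 1) ≤ C := by rw [hC]; linarith
  have hy : ∀ j : ℕ, ((p : ℝ) ^ j) ^ (-(1 / (k : ℝ))) = (p : ℝ) ^ (-((j : ℝ) / k)) := by
    intro j
    rw [← Real.rpow_natCast, ← Real.rpow_mul hp0.le]
    congr 1
    ring
  refine ⟨C, hC1, ?_⟩
  intro j
  induction j using Nat.strong_induction_on with
  | _ j ih =>
    intro a b ha
    rw [hy]
    have hyp : 0 < (p : ℝ) ^ (-((j : ℝ) / k)) := Real.rpow_pos_of_pos hp0 _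
    have hpj : 1 ≤ p ^ j := Nat.one_le_pow _ _ hp.pos
    by_cases hj : j < 2 * v + 2
    · have h1 := (hGE k (p ^ j) a b hpj).1
      have h2 : (1 : ℝ) ≤ (p : ℝ) ^ (2 * v + 2) * (p : ℝ) ^ (-((j : ℝ) / k)) := by
        rw [← Real.rpow_natCast, ← Real.rpow_add hp0]
        apply Real.one_le_rpow hpR.le
        have h3 : (j : ℝ) / k ≤ j := div_le_self (Nat.cast_nonneg _) (by linarith)
        have h4 : (j : ℝ) ≤ ((2 * v + 2 : ℕ) : ℝ) := by exact_mod_cast hj.le
        linarith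
      exact h1.trans (h2.trans (mul_le_mul_of_nonneg_right hCA hyp.le))
    · push Not at hj
      by_cases hb : ((p : ℤ) ^ (v + 1)) ∣ b
      · obtain ⟨h3a, h3b⟩ := hG3 k p j v a b hp (by omega) hv1 hv2 hj ha hb
        by_cases hjk : j ≤ k
        · have h1 : (1 : ℝ) / p ≤ (p : ℝ) ^ (-((j : ℝ) / k)) := by
            rw [one_div, ← Real.rpow_neg_one]
            apply Real.rpow_le_rpow_of_exponent_le hpR.le
            have : (j : ℝ) / k ≤ 1 := by
              rw [div_le_one hk0]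
              exact_mod_cast hjk
            linarith
          have h2 : (p : ℝ) ^ (-((j : ℝ) / k)) ≤ C * (p : ℝ) ^ (-((j : ℝ) / k)) :=
            le_mul_of_one_le_left hyp.le hC1
          exact (h3a hjk).trans (h1.trans h2)
        · push Not at hjk
          obtain ⟨b', hb'⟩ := h3b hjk
          have h1 := ih (j - k) (by omega) a b' ha
          rw [hy] at h1
          have h2 : (1 : ℝ) / p * (C * (p : ℝ) ^ (-(((j - k : ℕ) : ℝ) / k))) =
              C * (p : ℝ) ^ (-((j : ℝ) / k)) := by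
            have h3 : (p : ℝ) ^ (-(((j - k : ℕ) : ℝ) / k)) = p * (p : ℝ) ^ (-((j : ℝ) / k)) := by
              rw [Nat.cast_sub hjk.le]
              have h4 : -(((j : ℝ) - k) / k) = 1 + -((j : ℝ) / k) := by
                field_simp
                ring
              rw [h4, Real.rpow_add hp0, Real.rpow_one]
            rw [h3]
            field_simp
          have h5 : (1 : ℝ) / p * ‖GG k a b' (p ^ (j - k))‖ ≤
              (1 : ℝ) / p * (C * (p : ℝ) ^ (-(((j - k : ℕ) : ℝ) / k))) :=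
            mul_le_mul_of_nonneg_left h1 (by positivity)
          exact hb'.trans (h5.trans h2.le)
      · have h1 := hG4 k p j v a b hp (by omega) hv1 hv2 hj ha hb
        have h2 : (k : ℝ) ^ 2 * (p : ℝ) ^ v / (p : ℝ) ^ (j / 2) ≤
            (k : ℝ) ^ 2 * (p : ℝ) ^ (v + 1) * (p : ℝ) ^ (-((j : ℝ) / k)) := by
          have h3 : 1 / (p : ℝ) ^ (j / 2) ≤ p * (p : ℝ) ^ (-((j : ℝ) / k)) := by
            rw [one_div, ← Real.rpow_natCast, ← Real.rpow_neg hp0.le]
            nth_rewrite 2 [← Real.rpow_one (p : ℝ)]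
            rw [← Real.rpow_add hp0]
            apply Real.rpow_le_rpow_of_exponent_le hpR.le
            have h4 : (j : ℝ) / k ≤ j / 2 :=
              div_le_div_of_nonneg_left (Nat.cast_nonneg _) (by norm_num) hk2
            have h5 : (j : ℝ) ≤ 2 * ((j / 2 : ℕ) : ℝ) + 1 := by
              have : j ≤ 2 * (j / 2) + 1 := by omega
              exact_mod_cast this
            linarith
          calc (k : ℝ) ^ 2 * (p : ℝ) ^ v / (p : ℝ) ^ (j / 2)
              = (k : ℝ) ^ 2 * (p : ℝ) ^ v * (1 / (p : ℝ) ^ (j / 2)) := by ring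
            _ ≤ (k : ℝ) ^ 2 * (p : ℝ) ^ v * (p * (p : ℝ) ^ (-((j : ℝ) / k))) :=
                mul_le_mul_of_nonneg_left h3 (by positivity)
            _ = (k : ℝ) ^ 2 * (p : ℝ) ^ (v + 1) * (p : ℝ) ^ (-((j : ℝ) / k)) := by ring
        exact h1.trans (h2.trans (mul_le_mul_of_nonneg_right hCB hyp.le))

end Pool.Agent.H74.KS
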